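import Pool.Agent.H56.G3.TI

/-!
# Board gs3_modules, row II: the two nearest terms of two close sums are close in mean square
-/

set_option autoImplicit false

namespace Pool.Agent.H89.G3

open Finset Pool.Agent.H6.N4D Pool.Agent.H93.EB Pool.Agent.H93.GS Pool.Agent.H56.G3

lemma conj_ee (x : ℝ) : (starRingEnd ℂ) (ee x) = ee (-x) := by
  unfold ee
  rw [← Complex.exp_conj, map_mul, Complex.conj_ofReal, Complex.conj_I]
  congr 1
  push_cast
  ring

/-- scalar products of sums of exponentials with separated frequencies -/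
theorem scal {ι : Type} (hRG : T_RG) (U V : Finset ι) (C : ι → ℂ) (A : ι → ℝ) (N n : ℕ)
    (Lam : ℝ) (hN : 1 ≤ N) (hL : 0 < Lam)
    (hsep : ∀ x ∈ U, ∀ y ∈ V, Lam / N ≤ nd (A x - A y)) :
    ‖∑ m ∈ Ioc n (n + N), (∑ x ∈ U, C x * ee (A x * m)) *
      (starRingEnd ℂ) (∑ y ∈ V, C y * ee (A y * m))‖ ≤
      (∑ x ∈ U, ‖C x‖) * (∑ y ∈ V, ‖C y‖) * (N / (2 * Lam)) := by
  have hNr : (0 : ℝ) < N := by exact_mod_cast hN
  have h1 : ∑ m ∈ Ioc n (n + N), (∑ x ∈ U, C x * ee (A x * m)) *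
      (starRingEnd ℂ) (∑ y ∈ V, C y * ee (A y * m)) =
      ∑ x ∈ U, ∑ y ∈ V, (C x * (starRingEnd ℂ) (C y)) *
        ∑ m ∈ Ioc n (n + N), ee ((A x - A y) * m) := by
    have h2 : ∀ m ∈ Ioc n (n + N), (∑ x ∈ U, C x * ee (A x * m)) *
        (starRingEnd ℂ) (∑ y ∈ V, C y * ee (A y * m)) =
        ∑ x ∈ U, ∑ y ∈ V, (C x * (starRingEnd ℂ) (C y)) * ee ((A x - A y) * m) := by
      intro m _
      rw [map_sum, Finset.sum_mul_sum]
      refine Finset.sum_congr rfl fun x _ => Finset.sum_congr rfl fun y _ => ?_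
      rw [map_mul, conj_ee, show (A x - A y) * (m : ℝ) = A x * m + -(A y * m) by ring, ee_add]
      ring
    rw [Finset.sum_congr rfl h2, Finset.sum_comm]
    refine Finset.sum_congr rfl fun x _ => ?_
    rw [Finset.sum_comm]
    refine Finset.sum_congr rfl fun y _ => ?_
    rw [Finset.mul_sum]
  rw [h1]
  refine (norm_sum_le _ _).trans ?_
  rw [Finset.sum_mul_sum, Finset.sum_mul]
  refine Finset.sum_le_sum fun x hx => ?_
  refine (norm_sum_le _ _).trans ?_
  rw [Finset.sum_mul]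
  refine Finset.sum_le_sum fun y hy => ?_
  rw [norm_mul, norm_mul, RCLike.norm_conj]
  refine mul_le_mul_of_nonneg_left ?_ (by positivity)
  have hs := hsep x hx y hy
  have hpos : 0 < Lam / N := by positivity
  refine (hRG (A x - A y) N n (hpos.trans_le hs)).trans ?_
  have h3 : (N : ℝ) / (2 * Lam) = 1 / (2 * (Lam / N)) := by
    field_simp
  rw [h3]
  exact one_div_le_one_div_of_le (by positivity) (by linarith)

theorem pf_II (hRG : T_RG) : T_II := by
  classical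
  intro g h N n i j Lam δ hN hL hi hj hg hh hd
  have hNr : (0 : ℝ) < N := by exact_mod_cast hN
  obtain ⟨C, hC⟩ : ∃ C : ℕ ⊕ ℕ → ℂ, C = Sum.elim g.c (fun j => -h.c j) := ⟨_, rfl⟩
  obtain ⟨A, hA⟩ : ∃ A : ℕ ⊕ ℕ → ℝ, A = Sum.elim g.a h.a := ⟨_, rfl⟩
  obtain ⟨V, hV⟩ : ∃ V : Finset (ℕ ⊕ ℕ), V = ((range g.k).erase i).disjSum
    ((range h.k).erase j) := ⟨_, rfl⟩
  obtain ⟨U, hU⟩ : ∃ U : Finset (ℕ ⊕ ℕ), U = ({i} : Finset ℕ).disjSum {j} := ⟨_, rfl⟩
  have hu : ∀ m : ℕ, ∑ x ∈ U, C x * ee (A x * m) =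
      g.c i * ee (g.a i * m) - h.c j * ee (h.a j * m) := by
    intro m
    rw [hU, Finset.sum_disjSum, hC, hA]
    simp only [Finset.sum_singleton, Sum.elim_inl, Sum.elim_inr]
    ring
  have hv : ∀ m : ℕ, ∑ y ∈ V, C y * ee (A y * m) = (g.f m - h.f m) -
      (g.c i * ee (g.a i * m) - h.c j * ee (h.a j * m)) := by
    intro m
    have h1 : g.f m = g.c i * ee (g.a i * m) +
        ∑ k ∈ (range g.k).erase i, g.c k * ee (g.a k * m) := by
      unfold Ex.f
      rw [Finset.add_sum_erase _ (fun k => g.c k * ee (g.a k * m)) (Finset.mem_range.2 hi)]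
    have h2 : h.f m = h.c j * ee (h.a j * m) +
        ∑ k ∈ (range h.k).erase j, h.c k * ee (h.a k * m) := by
      unfold Ex.f
      rw [Finset.add_sum_erase _ (fun k => h.c k * ee (h.a k * m)) (Finset.mem_range.2 hj)]
    rw [hV, Finset.sum_disjSum, hC, hA, h1, h2]
    simp only [Sum.elim_inl, Sum.elim_inr, neg_mul, Finset.sum_neg_distrib]
    ring
  have hsep : ∀ x ∈ U, ∀ y ∈ V, Lam / N ≤ nd (A x - A y) := by
    intro x hx y hy
    rw [hU, Finset.mem_disjSum] at hx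
    rw [hV, Finset.mem_disjSum] at hy
    rcases hx with ⟨x', hx', rfl⟩ | ⟨x', hx', rfl⟩ <;>
      rcases hy with ⟨y', hy', rfl⟩ | ⟨y', hy', rfl⟩ <;>
      rw [Finset.mem_singleton] at hx' <;>
      rw [Finset.mem_erase, Finset.mem_range] at hy' <;>
      rw [hx', hA, nd_sub_comm] <;>
      simp only [Sum.elim_inl, Sum.elim_inr]
    · exact (hg y' hy'.2 hy'.1).1
    · exact (hh y' hy'.2 hy'.1).2
    · exact (hg y' hy'.2 hy'.1).2
    · exact (hh y' hy'.2 hy'.1).1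
  have hsc := scal hRG U V C A N n Lam hN hL hsep
  have hUn : ∑ x ∈ U, ‖C x‖ ≤ g.nm + h.nm := by
    rw [hU, Finset.sum_disjSum, hC]
    simp only [Finset.sum_singleton, Sum.elim_inl, Sum.elim_inr, norm_neg]
    exact add_le_add
      (Finset.single_le_sum (f := fun k => ‖g.c k‖) (fun k _ => norm_nonneg _)
        (Finset.mem_range.2 hi))
      (Finset.single_le_sum (f := fun k => ‖h.c k‖) (fun k _ => norm_nonneg _)
        (Finset.mem_range.2 hj))
  have hVn : ∑ y ∈ V, ‖C y‖ ≤ g.nm + h.nm := by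
    rw [hV, Finset.sum_disjSum, hC]
    simp only [Sum.elim_inl, Sum.elim_inr, norm_neg]
    exact add_le_add
      (Finset.sum_le_sum_of_subset_of_nonneg (Finset.erase_subset _ _) fun k _ _ =>
        norm_nonneg _)
      (Finset.sum_le_sum_of_subset_of_nonneg (Finset.erase_subset _ _) fun k _ _ =>
        norm_nonneg _)
  have hU0 : 0 ≤ ∑ x ∈ U, ‖C x‖ := Finset.sum_nonneg fun x _ => norm_nonneg _
  have hV0 : 0 ≤ ∑ y ∈ V, ‖C y‖ := Finset.sum_nonneg fun x _ => norm_nonneg _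
  have hprod : (∑ x ∈ U, ‖C x‖) * (∑ y ∈ V, ‖C y‖) ≤ (g.nm + h.nm) ^ 2 := by
    rw [sq]
    exact mul_le_mul hUn hVn hV0 (hU0.trans hUn)
  simp only [hu, hv] at hsc
  have hsum : ∑ m ∈ Ioc n (n + N), ‖g.c i * ee (g.a i * m) - h.c j * ee (h.a j * m)‖ ^ 2 ≤
      ∑ m ∈ Ioc n (n + N), ‖g.f m - h.f m‖ ^ 2 + 2 * ((g.nm + h.nm) ^ 2 * (N / (2 * Lam))) := by
    have h1 : ∀ m ∈ Ioc n (n + N),
        ‖g.c i * ee (g.a i * m) - h.c j * ee (h.a j * m)‖ ^ 2 ≤
        ‖g.f m - h.f m‖ ^ 2 - 2 * ((g.c i * ee (g.a i * m) - h.c j * ee (h.a j * m)) *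
          (starRingEnd ℂ) ((g.f m - h.f m) -
            (g.c i * ee (g.a i * m) - h.c j * ee (h.a j * m)))).re := by
      intro m _
      set u := g.c i * ee (g.a i * m) - h.c j * ee (h.a j * m)
      set v := (g.f m - h.f m) - u with hvd
      have h2 : g.f m - h.f m = u + v := by
        rw [hvd]
        ring
      have h3 := Complex.normSq_add u v
      have h4 : 0 ≤ Complex.normSq v := Complex.normSq_nonneg _
      rw [h2, Complex.sq_norm, Complex.sq_norm, h3]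
      linarith
    refine (Finset.sum_le_sum h1).trans ?_
    rw [Finset.sum_sub_distrib, ← Finset.mul_sum, ← Complex.re_sum]
    have h5 := Complex.abs_re_le_norm (∑ m ∈ Ioc n (n + N),
      (g.c i * ee (g.a i * m) - h.c j * ee (h.a j * m)) *
          (starRingEnd ℂ) ((g.f m - h.f m) -
            (g.c i * ee (g.a i * m) - h.c j * ee (h.a j * m))))
    have h6 := (abs_le.1 (h5.trans hsc)).1
    have h7 : (∑ x ∈ U, ‖C x‖) * (∑ y ∈ V, ‖C y‖) * (N / (2 * Lam)) ≤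
        (g.nm + h.nm) ^ 2 * (N / (2 * Lam)) :=
      mul_le_mul_of_nonneg_right hprod (by positivity)
    linarith
  have hd' : (∑ m ∈ Ioc n (n + N), ‖g.f m - h.f m‖ ^ 2) / N ≤ δ := by
    have h1 : d2 1 N n g h = (∑ m ∈ Ioc n (n + N), ‖g.f m - h.f m‖ ^ 2) / N := by
      unfold d2 ar
      rw [Finset.filter_true_of_mem fun m _ => one_dvd m, Nat.cast_one, mul_one]
    rw [← h1]
    exact hd
  have hfin := div_le_div_of_nonneg_right hsum hNr.le
  rw [add_div] at hfin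
  have h8 : 2 * ((g.nm + h.nm) ^ 2 * (N / (2 * Lam))) / N = (g.nm + h.nm) ^ 2 / Lam := by
    field_simp
  rw [h8] at hfin
  have h9 : (g.nm + h.nm) ^ 2 / Lam ≤ 4 * (g.nm + h.nm) ^ 2 / Lam := by
    refine div_le_div_of_nonneg_right ?_ hL.le
    have := sq_nonneg (g.nm + h.nm)
    linarith
  linarith

end Pool.Agent.H89.G3
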