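import Pool.Agent.H56.G3.TR

/-!
# Board gs3_modules, row RX: merging the atoms of all cells
-/

set_option autoImplicit false

namespace Pool.Agent.H89.G3

open Finset Pool.Agent.H6.N4D Pool.Agent.H93.EB Pool.Agent.H93.GS Pool.Agent.H56.G3

lemma ee_zero' : ee 0 = 1 := by
  have := ee_int 0
  simpa using this

lemma norm_ee_add_sub_one (x y : ℝ) : ‖ee (x + y) - 1‖ ≤ ‖ee x - 1‖ + ‖ee y - 1‖ := by
  have h : ee (x + y) - 1 = (ee x - 1) + ee x * (ee y - 1) := by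
    rw [ee_add]
    ring
  rw [h]
  refine (norm_add_le _ _).trans ?_
  rw [norm_mul, norm_ee, one_mul]

lemma norm_ee_sub_one_nd (x : ℝ) : ‖ee x - 1‖ ≤ 2 * Real.pi * nd x := by
  have h := norm_ee_sub_le x 0
  rw [ee_zero', sub_zero] at h
  exact h

lemma norm_ee_sub_one_two (x : ℝ) : ‖ee x - 1‖ ≤ 2 := by
  refine (norm_sub_le _ _).trans ?_
  rw [norm_ee, norm_one]
  norm_num

/-- one cell: the sum over the window -/
theorem cell_sum (s : Finset ℕ) (c : ℕ → ℂ) (α : ℕ → ℝ) (P N : ℕ) (η Λ : ℝ) (hP : 1 ≤ P)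
    (hN : 1 ≤ N) (hη : 0 < η) (hΛ : 0 < Λ) (hα : ∀ i ∈ s, nd (α i) ≤ 2 * Λ / N)
    (hsum : ∑ j ∈ range P, ∑ i ∈ s, ‖c i‖ * ‖ee (α i * (j * (N / P) : ℕ)) - 1‖ ^ 2 ≤
      32 * η ^ 2 * P) :
    ∑ t ∈ Ioc 0 N, ∑ i ∈ s, ‖c i‖ * ‖ee (α i * t) - 1‖ ≤
      N * (η * (∑ i ∈ s, ‖c i‖ + 8) + (∑ i ∈ s, ‖c i‖) * (4 * Real.pi * Λ / P)) +
        2 * P * ∑ i ∈ s, ‖c i‖ := by
  set m : ℝ := ∑ i ∈ s, ‖c i‖ with hm
  set ℓ : ℕ := N / P with hℓ
  set B : ℝ := 4 * Real.pi * Λ / P with hB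
  set W : ℕ → ℝ := fun t => ∑ i ∈ s, ‖c i‖ * ‖ee (α i * t) - 1‖ with hW
  set V : ℕ → ℝ := fun j => ∑ i ∈ s, ‖c i‖ * ‖ee (α i * (j * ℓ : ℕ)) - 1‖ with hV
  have hm0 : 0 ≤ m := Finset.sum_nonneg fun i _ => norm_nonneg _
  have hPr : (0 : ℝ) < P := by exact_mod_cast hP
  have hNr : (0 : ℝ) < N := by exact_mod_cast hN
  have hB0 : 0 ≤ B := by positivity
  have hW0 : ∀ t, 0 ≤ W t := fun t =>
    Finset.sum_nonneg fun i _ => mul_nonneg (norm_nonneg _) (norm_nonneg _)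
  have hW2 : ∀ t, W t ≤ 2 * m := by
    intro t
    calc W t ≤ ∑ i ∈ s, ‖c i‖ * 2 :=
          Finset.sum_le_sum fun i _ =>
            mul_le_mul_of_nonneg_left (norm_ee_sub_one_two _) (norm_nonneg _)
      _ = 2 * m := by rw [← Finset.sum_mul, mul_comm]
  have hPl : P * ℓ ≤ N := Nat.mul_div_le N P
  have hℓr : (ℓ : ℝ) ≤ N / P := by
    rw [le_div_iff₀ hPr]
    have : ((P * ℓ : ℕ) : ℝ) ≤ N := by exact_mod_cast hPl
    push_cast at this
    linarith
  have hstep : ∀ j x : ℕ, x < ℓ → W (j * ℓ + x) ≤ V j + m * B := by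
    intro j x hx
    have h1 : ∀ i ∈ s, ‖c i‖ * ‖ee (α i * ((j * ℓ + x : ℕ) : ℝ)) - 1‖ ≤
        ‖c i‖ * ‖ee (α i * (j * ℓ : ℕ)) - 1‖ + ‖c i‖ * B := by
      intro i hi
      rw [← mul_add]
      refine mul_le_mul_of_nonneg_left ?_ (norm_nonneg _)
      have h2 : α i * ((j * ℓ + x : ℕ) : ℝ) = α i * ((j * ℓ : ℕ) : ℝ) + x * α i := by
        push_cast
        ring
      rw [h2]
      refine (norm_ee_add_sub_one _ _).trans (add_le_add le_rfl ?_)
      refine (norm_ee_sub_one_nd _).trans ?_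
      have h3 : nd ((x : ℝ) * α i) ≤ x * nd (α i) := nd_nat_mul_le x (α i)
      have h4 : (x : ℝ) * nd (α i) ≤ N / P * (2 * Λ / N) := by
        refine mul_le_mul ?_ (hα i hi) (nd_nonneg _) (by positivity)
        have : (x : ℝ) ≤ ℓ := by exact_mod_cast hx.le
        linarith
      have h5 : (N : ℝ) / P * (2 * Λ / N) = 2 * Λ / P := by
        field_simp
      rw [h5] at h4
      calc 2 * Real.pi * nd ((x : ℝ) * α i) ≤ 2 * Real.pi * (2 * Λ / P) :=
            mul_le_mul_of_nonneg_left (h3.trans h4) (by positivity)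
        _ = B := by rw [hB]; ring
    calc W (j * ℓ + x) ≤ ∑ i ∈ s, (‖c i‖ * ‖ee (α i * (j * ℓ : ℕ)) - 1‖ + ‖c i‖ * B) :=
          Finset.sum_le_sum h1
      _ = V j + m * B := by rw [Finset.sum_add_distrib, ← Finset.sum_mul]
  have hind : ∀ Q : ℕ, ∑ t ∈ range (Q * ℓ), W t ≤ ∑ j ∈ range Q, ℓ * (V j + m * B) := by
    intro Q
    induction Q with
    | zero => simp
    | succ Q ih =>
      rw [Nat.succ_mul, Finset.sum_range_add, Finset.sum_range_succ]
      refine add_le_add ih ?_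
      calc ∑ x ∈ range ℓ, W (Q * ℓ + x) ≤ ∑ _x ∈ range ℓ, (V Q + m * B) :=
            Finset.sum_le_sum fun x hx => hstep Q x (Finset.mem_range.1 hx)
        _ = ℓ * (V Q + m * B) := by rw [Finset.sum_const, card_range, nsmul_eq_mul]
  have hVs : ∑ j ∈ range P, V j ≤ P * (η * (m + 8)) := by
    have h1 : ∀ j, V j ≤ η * m + (4 * η)⁻¹ *
        ∑ i ∈ s, ‖c i‖ * ‖ee (α i * (j * ℓ : ℕ)) - 1‖ ^ 2 := by
      intro j
      rw [hm, Finset.mul_sum, Finset.mul_sum, ← Finset.sum_add_distrib]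
      refine Finset.sum_le_sum fun i _ => ?_
      have h2 : ‖ee (α i * (j * ℓ : ℕ)) - 1‖ ≤ η + (4 * η)⁻¹ *
          ‖ee (α i * (j * ℓ : ℕ)) - 1‖ ^ 2 := by
        set x := ‖ee (α i * (j * ℓ : ℕ)) - 1‖
        have h3 : 0 ≤ (4 * η)⁻¹ * (x - 2 * η) ^ 2 := by positivity
        have h4 : (4 * η)⁻¹ * (x - 2 * η) ^ 2 = η + (4 * η)⁻¹ * x ^ 2 - x := by
          field_simp
          ring
        linarith
      calc ‖c i‖ * ‖ee (α i * (j * ℓ : ℕ)) - 1‖
          ≤ ‖c i‖ * (η + (4 * η)⁻¹ * ‖ee (α i * (j * ℓ : ℕ)) - 1‖ ^ 2) :=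
            mul_le_mul_of_nonneg_left h2 (norm_nonneg _)
        _ = η * ‖c i‖ + (4 * η)⁻¹ * (‖c i‖ * ‖ee (α i * (j * ℓ : ℕ)) - 1‖ ^ 2) := by ring
    calc ∑ j ∈ range P, V j ≤ ∑ j ∈ range P, (η * m + (4 * η)⁻¹ *
          ∑ i ∈ s, ‖c i‖ * ‖ee (α i * (j * ℓ : ℕ)) - 1‖ ^ 2) :=
          Finset.sum_le_sum fun j _ => h1 j
      _ = P * (η * m) + (4 * η)⁻¹ *
          ∑ j ∈ range P, ∑ i ∈ s, ‖c i‖ * ‖ee (α i * (j * ℓ : ℕ)) - 1‖ ^ 2 := by
          rw [Finset.sum_add_distrib, Finset.sum_const, card_range, nsmul_eq_mul,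
            ← Finset.mul_sum]
      _ ≤ P * (η * m) + (4 * η)⁻¹ * (32 * η ^ 2 * P) := by
          have h5 : 0 ≤ (4 * η)⁻¹ := by positivity
          have h6 := mul_le_mul_of_nonneg_left hsum h5
          linarith
      _ = P * (η * (m + 8)) := by
          field_simp
          ring
  have hmain : ∑ t ∈ range (P * ℓ), W t ≤ N * (η * (m + 8) + m * B) := by
    refine (hind P).trans ?_
    have h1 : ∑ j ∈ range P, (ℓ : ℝ) * (V j + m * B) = ℓ * ∑ j ∈ range P, V j +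
        (P * ℓ) * (m * B) := by
      rw [← Finset.mul_sum, Finset.sum_add_distrib, Finset.sum_const, card_range, nsmul_eq_mul]
      ring
    rw [h1]
    have h2 : (P : ℝ) * ℓ ≤ N := by exact_mod_cast hPl
    have h3 : (ℓ : ℝ) * ∑ j ∈ range P, V j ≤ ℓ * (P * (η * (m + 8))) :=
      mul_le_mul_of_nonneg_left hVs (Nat.cast_nonneg _)
    have h4 : (ℓ : ℝ) * (P * (η * (m + 8))) ≤ N * (η * (m + 8)) := by
      have h5 : 0 ≤ η * (m + 8) := by positivity
      have h6 := mul_le_mul_of_nonneg_right h2 h5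
      linarith
    have h7 : (P * ℓ) * (m * B) ≤ N * (m * B) :=
      mul_le_mul_of_nonneg_right h2 (mul_nonneg hm0 hB0)
    linarith
  have hrest : ∑ t ∈ Ico (P * ℓ) (N + 1), W t ≤ 2 * P * m := by
    have h1 : ((Ico (P * ℓ) (N + 1)).card : ℝ) ≤ P := by
      rw [Nat.card_Ico]
      have h2 : N < P * ℓ + P := by
        have h3 := Nat.lt_mul_div_succ N (by omega : 0 < P)
        rw [hℓ]
        linarith
      have h4 : N + 1 - P * ℓ ≤ P := by omega
      exact_mod_cast h4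
    calc ∑ t ∈ Ico (P * ℓ) (N + 1), W t ≤ ∑ _t ∈ Ico (P * ℓ) (N + 1), 2 * m :=
          Finset.sum_le_sum fun t _ => hW2 t
      _ = ((Ico (P * ℓ) (N + 1)).card : ℝ) * (2 * m) := by
          rw [Finset.sum_const, nsmul_eq_mul]
      _ ≤ P * (2 * m) := mul_le_mul_of_nonneg_right h1 (by positivity)
      _ = 2 * P * m := by ring
  calc ∑ t ∈ Ioc 0 N, W t ≤ ∑ t ∈ Ico 0 (N + 1), W t := by
        refine Finset.sum_le_sum_of_subset_of_nonneg ?_ fun t _ _ => hW0 t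
        intro t ht
        rw [Finset.mem_Ioc] at ht
        rw [Finset.mem_Ico]
        omega
    _ = ∑ t ∈ range (P * ℓ), W t + ∑ t ∈ Ico (P * ℓ) (N + 1), W t := by
        rw [Finset.range_eq_Ico, Finset.sum_Ico_consecutive _ (Nat.zero_le _) (by omega)]
    _ ≤ _ := add_le_add hmain hrest

/-- splitting into cells -/
theorem split_cells {E : Type} [AddCommMonoid E] (k l : ℕ) (c : ℕ → ℂ) (τ : ℕ → ℕ) (f : ℕ → E)
    (hf : ∀ i, c i = 0 → f i = 0) (hτ : ∀ i < k, c i ≠ 0 → τ i < l) :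
    ∑ i ∈ range k, f i =
      ∑ s ∈ range l, ∑ i ∈ (range k).filter (fun i => c i ≠ 0 ∧ τ i = s), f i := by
  have h1 : ∑ i ∈ range k, f i = ∑ i ∈ (range k).filter (fun i => c i ≠ 0), f i := by
    symm
    refine Finset.sum_subset (Finset.filter_subset _ _) fun i hi hi' => ?_
    refine hf i ?_
    by_contra h
    exact hi' (Finset.mem_filter.2 ⟨hi, h⟩)
  rw [h1, ← Finset.sum_fiberwise_of_maps_to (g := τ) (t := range l)]
  · refine Finset.sum_congr rfl fun s _ => ?_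
    rw [Finset.filter_filter]
  · intro i hi
    rw [Finset.mem_filter, Finset.mem_range] at hi
    exact Finset.mem_range.2 (hτ i hi.1 hi.2)

/-- sums over the window -/
theorem win {E : Type} [AddCommMonoid E] (N n : ℕ) (F : ℕ → E) :
    ∑ m ∈ (Ioc n (n + N)).filter (fun m => 1 ∣ m), F m = ∑ t ∈ Ioc 0 N, F (n + t) := by
  symm
  refine Finset.sum_nbij' (fun t => n + t) (fun m => m - n) ?_ ?_ ?_ ?_ ?_
  · intro t ht
    rw [Finset.mem_Ioc] at ht
    rw [Finset.mem_filter, Finset.mem_Ioc]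
    exact ⟨by omega, one_dvd _⟩
  · intro m hm
    rw [Finset.mem_filter, Finset.mem_Ioc] at hm
    rw [Finset.mem_Ioc]
    omega
  · intro t _
    simp
  · intro m hm
    rw [Finset.mem_filter, Finset.mem_Ioc] at hm
    omega
  · intro t _
    rfl

/-- comparison of the functionals -/
theorem J_cmp (th : ℝ) (lam : ℕ → ℝ) (N n : ℕ) (g h : Ex) (K : ℝ) (hth : 0 < th) (hl : B1 lam)
    (hN : 1 ≤ N) (hg : ∀ m, ‖g.f m‖ ≤ K) (hh : ∀ m, ‖h.f m‖ ≤ K) (hnm : h.nm ≤ g.nm) :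
    J th lam 1 N n g - J th lam 1 N n h ≤
      (2 + 2 * K) * ((∑ t ∈ Ioc 0 N, ‖g.f (n + t) - h.f (n + t)‖) / N) := by
  have hNr : (0 : ℝ) < N := by exact_mod_cast hN
  unfold J ar
  rw [win, win]
  have h1 : ∀ t ∈ Ioc 0 N, 2 * lam (n + t) * (g.f (n + t)).re - ‖g.f (n + t)‖ ^ 2 ≤
      (2 * lam (n + t) * (h.f (n + t)).re - ‖h.f (n + t)‖ ^ 2) +
        (2 + 2 * K) * ‖g.f (n + t) - h.f (n + t)‖ := by
    intro t _
    set u := g.f (n + t)
    set v := h.f (n + t)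
    have h2 : lam (n + t) * (u.re - v.re) ≤ ‖u - v‖ := by
      have h3 : |lam (n + t) * (u.re - v.re)| ≤ 1 * ‖u - v‖ := by
        rw [abs_mul]
        refine mul_le_mul (hl _) ?_ (abs_nonneg _) zero_le_one
        have h4 := Complex.abs_re_le_norm (u - v)
        rwa [Complex.sub_re] at h4
      rw [one_mul] at h3
      exact (le_abs_self _).trans h3
    have h5 : ‖v‖ ^ 2 - ‖u‖ ^ 2 ≤ 2 * K * ‖u - v‖ := by
      have h6 : ‖v‖ - ‖u‖ ≤ ‖u - v‖ := by
        rw [norm_sub_rev]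
        exact norm_sub_norm_le v u
      have h7 : ‖v‖ ^ 2 - ‖u‖ ^ 2 = (‖v‖ - ‖u‖) * (‖v‖ + ‖u‖) := by ring
      rw [h7]
      have h8 : 0 ≤ ‖v‖ + ‖u‖ := by positivity
      have h9 : ‖v‖ + ‖u‖ ≤ 2 * K := by
        have := hg (n + t)
        have := hh (n + t)
        linarith
      calc (‖v‖ - ‖u‖) * (‖v‖ + ‖u‖) ≤ ‖u - v‖ * (‖v‖ + ‖u‖) :=
            mul_le_mul_of_nonneg_right h6 h8
        _ ≤ ‖u - v‖ * (2 * K) := mul_le_mul_of_nonneg_left h9 (norm_nonneg _)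
        _ = 2 * K * ‖u - v‖ := by ring
    nlinarith
  have h10 := Finset.sum_le_sum h1
  rw [Finset.sum_add_distrib, ← Finset.mul_sum] at h10
  have h11 : 2 * th * h.nm ≤ 2 * th * g.nm := mul_le_mul_of_nonneg_left hnm (by positivity)
  have h12 := div_le_div_of_nonneg_right h10 hNr.le
  rw [add_div, mul_div_assoc (2 + 2 * K)] at h12
  simp only [Nat.cast_one, mul_one]
  linarith

theorem pf_RX (hRB : T_RB) (hRE : T_RE) (hRP : T_RP) : T_RX := by
  classical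
  intro th Lam κ r₀ hth hth1 hLam hκ
  set K : ℝ := 2 / th with hK
  have hK0 : 0 < K := by positivity
  set K2 : ℝ := 2 + 2 * K with hK2
  have hK20 : 0 < K2 := by positivity
  set η : ℝ := κ / (8 * K2 * (K + 8 * r₀)) with hη
  have hη0 : 0 < η := by positivity
  obtain ⟨P, hP⟩ := exists_nat_ge (max (max 1 (100 * Lam / (th ^ 3 * η ^ 2)))
    (8 * K2 * K * (4 * Real.pi * Lam) / κ))
  have hP1 : 1 ≤ P := by
    have : (1 : ℝ) ≤ P := (le_max_left _ _).trans ((le_max_left _ _).trans hP)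
    exact_mod_cast this
  have hPa : 100 * Lam / (th ^ 3 * η ^ 2) ≤ P :=
    (le_max_right _ _).trans ((le_max_left _ _).trans hP)
  have hPb : 8 * K2 * K * (4 * Real.pi * Lam) / κ ≤ P := (le_max_right _ _).trans hP
  have hPr : (0 : ℝ) < P := by exact_mod_cast hP1
  obtain ⟨δ₁, P₁, hδ₁, hRP1⟩ := hRP th Lam (η ^ 2) r₀ P hth hth1 hLam (by positivity) hP1 hPa
  obtain ⟨P₂, hP₂⟩ := exists_nat_ge (8 * K2 * (2 * P * K) / κ)
  refine ⟨min (min δ₁ (κ / 2)) 1, max (max P₁ P₂) 1, by positivity, ?_⟩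
  intro lam M N n l g b hl hM hPN hsl hdf hlr hCv
  have hP₀ : 1 ≤ max (max P₁ P₂) 1 := le_max_right _ _
  have hmul : max (max P₁ P₂) 1 ≤ N := (Nat.le_mul_of_pos_right _ (by omega)).trans hPN
  have hN : 1 ≤ N := hP₀.trans hmul
  have hNr : (0 : ℝ) < N := by exact_mod_cast hN
  have hN2 : P₂ ≤ N := ((le_max_right _ _).trans (le_max_left _ _)).trans hmul
  have hPN1 : P₁ * M ≤ N :=
    (Nat.mul_le_mul_right M ((le_max_left _ _).trans (le_max_left _ _))).trans hPN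
  have hδa : min (min δ₁ (κ / 2)) 1 ≤ δ₁ := (min_le_left _ _).trans (min_le_left _ _)
  have hδb : min (min δ₁ (κ / 2)) 1 ≤ κ / 2 := (min_le_left _ _).trans (min_le_right _ _)
  have hδc : min (min δ₁ (κ / 2)) 1 ≤ 1 := min_le_right _ _
  obtain ⟨-, hEn0, -, -, -, hnm, hsup⟩ := hRB th lam 1 N n hth hl le_rfl hN
  have hJ : -1 ≤ J th lam 1 N n g := by
    unfold df at hdf
    linarith
  have hgK : g.nm ≤ K := hnm g hN hJ
  -- the cells
  unfold Cv at hCv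
  have hτ : ∃ τ : ℕ → ℕ, ∀ i < g.k, g.c i ≠ 0 → τ i < l ∧ nd (g.a i - b (τ i)) ≤ Lam / N := by
    refine ⟨fun i => if h : i < g.k ∧ g.c i ≠ 0 then (hCv i h.1 h.2).choose else 0, ?_⟩
    intro i hi hc
    simp only [dif_pos (show i < g.k ∧ g.c i ≠ 0 from ⟨hi, hc⟩)]
    exact (hCv i hi hc).choose_spec
  obtain ⟨τ, hτ⟩ := hτ
  have hal := hRP1 lam M N n l g b τ hl hM hPN1 (hsl.trans hδa) (hdf.trans hδa) hlr hτ
  set cl : ℕ → Finset ℕ := fun s => (range g.k).filter (fun i => g.c i ≠ 0 ∧ τ i = s) with hcl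
  have hLN : 0 ≤ Lam / N := by positivity
  have hx : ∀ s, s < l → ∃ x : ℝ, nd (x - b s) ≤ Lam / N ∧
      (∀ i ∈ cl s, nd (g.a i - x) ≤ 2 * Lam / N) ∧
      ∑ j ∈ range P, ∑ i ∈ cl s, ‖g.c i‖ * ‖ee ((g.a i - x) * (j * (N / P) : ℕ)) - 1‖ ^ 2 ≤
        32 * η ^ 2 * P := by
    intro s hs
    by_cases hne : (cl s).Nonempty
    · obtain ⟨i₀, hi₀, hE⟩ := hRE (cl s) g.c (fun i => g.a i - b s) P (N / P) n (η ^ 2) hne hP1
        (by positivity) (hal s hs)
      have hmem : ∀ i ∈ cl s, nd (g.a i - b s) ≤ Lam / N := by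
        intro i hi
        rw [hcl] at hi
        simp only [Finset.mem_filter, Finset.mem_range] at hi
        obtain ⟨h1, h2, h3⟩ := hi
        have := (hτ i h1 h2).2
        rwa [h3] at this
      refine ⟨g.a i₀, hmem i₀ hi₀, fun i hi => ?_, ?_⟩
      · have h1 := nd_tri (g.a i) (b s) (g.a i₀)
        have h2 := hmem i hi
        have h3 := hmem i₀ hi₀
        rw [nd_sub_comm (b s)] at h1
        have h4 : 2 * Lam / N = Lam / N + Lam / N := by ring
        linarith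
      · simpa only [sub_sub_sub_cancel_right] using hE
    · rw [Finset.not_nonempty_iff_eq_empty] at hne
      refine ⟨b s, ?_, ?_, ?_⟩
      · rw [sub_self]
        exact (nd_le_abs 0).trans (by simpa using hLN)
      · rw [hne]
        simp
      · rw [hne]
        simp only [Finset.sum_empty, Finset.sum_const_zero]
        positivity
  choose! x hx1 hx2 hx3 using hx
  set g' : Ex := ⟨l, fun s => ∑ i ∈ cl s, g.c i * ee ((g.a i - x s) * n), x⟩ with hg'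
  refine ⟨g', rfl, fun s hs => hx1 s hs, ?_⟩
  have hnmsplit : g.nm = ∑ s ∈ range l, ∑ i ∈ cl s, ‖g.c i‖ := by
    unfold Ex.nm
    exact split_cells g.k l g.c τ (fun i => ‖g.c i‖) (fun i hi => by simp [hi])
      (fun i hi hc => (hτ i hi hc).1)
  have hnm' : g'.nm ≤ g.nm := by
    rw [hnmsplit]
    unfold Ex.nm
    refine Finset.sum_le_sum fun s _ => ?_
    change ‖∑ i ∈ cl s, g.c i * ee ((g.a i - x s) * n)‖ ≤ _
    refine (norm_sum_le _ _).trans (le_of_eq (Finset.sum_congr rfl fun i _ => ?_))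
    rw [norm_mul, norm_ee, mul_one]
  have hpt : ∀ t : ℕ, ‖g.f (n + t) - g'.f (n + t)‖ ≤
      ∑ s ∈ range l, ∑ i ∈ cl s, ‖g.c i‖ * ‖ee ((g.a i - x s) * t) - 1‖ := by
    intro t
    have h1 : g.f (n + t) = ∑ s ∈ range l, ∑ i ∈ cl s, g.c i * ee (g.a i * (n + t : ℕ)) := by
      unfold Ex.f
      exact split_cells g.k l g.c τ (fun i => g.c i * ee (g.a i * (n + t : ℕ)))
        (fun i hi => by simp [hi]) (fun i hi hc => (hτ i hi hc).1)
    have h2 : g'.f (n + t) = ∑ s ∈ range l, (∑ i ∈ cl s, g.c i * ee ((g.a i - x s) * n)) *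
        ee (x s * (n + t : ℕ)) := rfl
    rw [h1, h2, ← Finset.sum_sub_distrib]
    refine (norm_sum_le _ _).trans (Finset.sum_le_sum fun s _ => ?_)
    rw [Finset.sum_mul, ← Finset.sum_sub_distrib]
    refine (norm_sum_le _ _).trans (Finset.sum_le_sum fun i _ => le_of_eq ?_)
    have h3 : g.c i * ee (g.a i * (n + t : ℕ)) - g.c i * ee ((g.a i - x s) * n) *
        ee (x s * (n + t : ℕ)) = g.c i * (ee ((g.a i - x s) * n) * ee (x s * (n + t : ℕ))) *
          (ee ((g.a i - x s) * t) - 1) := by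
      have h4 : g.a i * ((n + t : ℕ) : ℝ) = (g.a i - x s) * n + x s * ((n + t : ℕ) : ℝ) +
          (g.a i - x s) * t := by
        push_cast
        ring
      rw [h4, ee_add, ee_add]
      ring
    rw [h3, norm_mul, norm_mul, norm_mul, norm_ee, norm_ee, mul_one, mul_one]
  have hcells : ∑ t ∈ Ioc 0 N, ‖g.f (n + t) - g'.f (n + t)‖ ≤
      N * (η * (K + 8 * r₀) + K * (4 * Real.pi * Lam / P)) + 2 * P * K := by
    calc ∑ t ∈ Ioc 0 N, ‖g.f (n + t) - g'.f (n + t)‖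
        ≤ ∑ t ∈ Ioc 0 N, ∑ s ∈ range l, ∑ i ∈ cl s,
            ‖g.c i‖ * ‖ee ((g.a i - x s) * t) - 1‖ := Finset.sum_le_sum fun t _ => hpt t
      _ = ∑ s ∈ range l, ∑ t ∈ Ioc 0 N, ∑ i ∈ cl s,
            ‖g.c i‖ * ‖ee ((g.a i - x s) * t) - 1‖ := Finset.sum_comm
      _ ≤ ∑ s ∈ range l, (N * (η * (∑ i ∈ cl s, ‖g.c i‖ + 8) +
            (∑ i ∈ cl s, ‖g.c i‖) * (4 * Real.pi * Lam / P)) + 2 * P * ∑ i ∈ cl s, ‖g.c i‖) := by
          refine Finset.sum_le_sum fun s hs => ?_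
          have hs' := Finset.mem_range.1 hs
          exact cell_sum (cl s) g.c (fun i => g.a i - x s) P N η Lam hP1 hN hη0 hLam
            (hx2 s hs') (hx3 s hs')
      _ = N * (η * (g.nm + 8 * l) + g.nm * (4 * Real.pi * Lam / P)) + 2 * P * g.nm := by
          rw [hnmsplit, Finset.sum_add_distrib, ← Finset.mul_sum, ← Finset.mul_sum,
            Finset.sum_add_distrib, ← Finset.mul_sum, ← Finset.sum_mul, Finset.sum_add_distrib,
            Finset.sum_const, card_range, nsmul_eq_mul]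
          ring
      _ ≤ N * (η * (K + 8 * r₀) + K * (4 * Real.pi * Lam / P)) + 2 * P * K := by
          have h1 : (l : ℝ) ≤ r₀ := by exact_mod_cast hlr
          gcongr
  have hfg : ∀ m, ‖g.f m‖ ≤ K := fun m => (hsup g m).1.trans hgK
  have hfg' : ∀ m, ‖g'.f m‖ ≤ K := fun m => (hsup g' m).1.trans (hnm'.trans hgK)
  have hJc := J_cmp th lam N n g g' K hth hl hN hfg hfg' hnm'
  have hfin : (2 + 2 * K) * ((∑ t ∈ Ioc 0 N, ‖g.f (n + t) - g'.f (n + t)‖) / N) ≤ κ / 2 := by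
    have h1 : (∑ t ∈ Ioc 0 N, ‖g.f (n + t) - g'.f (n + t)‖) / N ≤
        η * (K + 8 * r₀) + K * (4 * Real.pi * Lam / P) + 2 * P * K / N := by
      rw [div_le_iff₀ hNr]
      refine hcells.trans (le_of_eq ?_)
      field_simp
    have h2 : K2 * (η * (K + 8 * r₀)) = κ / 8 := by
      rw [hη]
      have h3 : K + 8 * (r₀ : ℝ) ≠ 0 := by positivity
      field_simp
    have h4 : K2 * (K * (4 * Real.pi * Lam / P)) ≤ κ / 8 := by
      rw [div_le_iff₀ hκ] at hPb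
      rw [show K2 * (K * (4 * Real.pi * Lam / P)) = (K2 * K * (4 * Real.pi * Lam)) / P by ring,
        div_le_iff₀ hPr]
      linarith
    have h5 : K2 * (2 * P * K / N) ≤ κ / 8 := by
      have h6 : (P₂ : ℝ) ≤ N := by exact_mod_cast hN2
      have h7 := hP₂.trans h6
      rw [div_le_iff₀ hκ] at h7
      rw [← mul_div_assoc, div_le_iff₀ hNr]
      linarith
    calc K2 * ((∑ t ∈ Ioc 0 N, ‖g.f (n + t) - g'.f (n + t)‖) / N)
        ≤ K2 * (η * (K + 8 * r₀) + K * (4 * Real.pi * Lam / P) + 2 * P * K / N) :=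
          mul_le_mul_of_nonneg_left h1 hK20.le
      _ ≤ κ / 2 := by
          rw [mul_add, mul_add, h2]
          linarith
  unfold df at hdf ⊢
  linarith

end Pool.Agent.H89.G3
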